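import Pool.Agent.R229.MS.Stm

/-! Walsh functions: basic facts, totality (piece MS-W of project MS, MP_612f91_an). -/

set_option autoImplicit false

namespace Pool.Agent.R280.MSW

open MeasureTheory Filter Topology Set
open Pool.Agent.R229.MS
open scoped InnerProductSpace ENNReal NNReal

universe u

lemma sg_of_mem {X : Type u} {A : Set X} {x : X} (h : x ∈ A) : sg A x = -1 := by
  classical
  unfold sg
  simp [h]

lemma sg_of_notMem {X : Type u} {A : Set X} {x : X} (h : x ∉ A) : sg A x = 1 := by
  classical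
  unfold sg
  simp [h]

lemma sg_mul_self {X : Type u} (A : Set X) (x : X) : sg A x * sg A x = 1 := by
  by_cases h : x ∈ A
  · rw [sg_of_mem h]; norm_num
  · rw [sg_of_notMem h]; norm_num

lemma abs_sg {X : Type u} (A : Set X) (x : X) : |sg A x| = 1 := by
  by_cases h : x ∈ A
  · rw [sg_of_mem h]; norm_num
  · rw [sg_of_notMem h]; norm_num

lemma measurable_sg {X : Type u} [MeasurableSpace X] {A : Set X} (hA : MeasurableSet A) :
    Measurable (sg A) := by
  classical
  have : sg A = fun x => if x ∈ A then (-1 : ℝ) else 1 := by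
    funext x
    by_cases h : x ∈ A
    · rw [sg_of_mem h]; simp [h]
    · rw [sg_of_notMem h]; simp [h]
  rw [this]
  exact Measurable.ite hA measurable_const measurable_const

variable {X Ξ : Type u}

lemma walsh_sq (A : Ξ → Set X) (S : Finset Ξ) (x : X) : walsh A S x * walsh A S x = 1 := by
  unfold walsh
  rw [← Finset.prod_mul_distrib]
  exact Finset.prod_eq_one fun i _ => sg_mul_self _ _

lemma abs_walsh (A : Ξ → Set X) (S : Finset Ξ) (x : X) : |walsh A S x| = 1 := by
  unfold walsh
  rw [Finset.abs_prod]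
  exact Finset.prod_eq_one fun i _ => abs_sg _ _

lemma walsh_mul [DecidableEq Ξ] (A : Ξ → Set X) (S T : Finset Ξ) (x : X) :
    walsh A S x * walsh A T x = walsh A (symmDiff S T) x := by
  have h1 : walsh A S x = walsh A (S \ T) x * walsh A (S ∩ T) x := by
    unfold walsh
    rw [← Finset.prod_union]
    · congr 1
      ext i; simp; tauto
    · rw [Finset.disjoint_left]
      intro i; simp; tauto
  have h2 : walsh A T x = walsh A (T \ S) x * walsh A (S ∩ T) x := by
    unfold walsh
    rw [← Finset.prod_union]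
    · congr 1
      ext i; simp; tauto
    · rw [Finset.disjoint_left]
      intro i; simp; tauto
  have h3 : walsh A (symmDiff S T) x = walsh A (S \ T) x * walsh A (T \ S) x := by
    unfold walsh
    rw [← Finset.prod_union]
    · rfl
    · rw [Finset.disjoint_left]
      intro i; simp; tauto
  rw [h1, h2, h3]
  have := walsh_sq A (S ∩ T) x
  linear_combination (walsh A (S \ T) x * walsh A (T \ S) x) * this

lemma walsh_map (A : Ξ → Set X) (S : Finset Ξ) (π : Ξ ≃ Ξ) (x : X) :
    walsh A (S.map π.toEmbedding) x = walsh (fun i => A (π i)) S x := by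
  unfold walsh
  rw [Finset.prod_map]
  rfl

lemma measurable_walsh [MeasurableSpace X] {A : Ξ → Set X} (hA : ∀ i, MeasurableSet (A i))
    (S : Finset Ξ) : Measurable (walsh A S) := by
  unfold walsh
  exact Finset.measurable_prod S fun i _ => measurable_sg (hA i)

/-- the sum of the Walsh functions over the subsets of `S`. -/
lemma sum_walsh (A : Ξ → Set X) (S : Finset Ξ) (x : X) :
    ∑ G ∈ S.powerset, walsh A G x = ∏ i ∈ S, (sg (A i) x + 1) := by
  classical
  rw [Finset.prod_add_one]
  rfl

lemma prod_sg (A : Ξ → Set X) (S : Finset Ξ) (x : X) :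
    (1 / 2 : ℝ) ^ S.card * ∏ i ∈ S, (sg (A i) x + 1) =
      (⋂ i ∈ S, (A i)ᶜ).indicator (fun _ => (1 : ℝ)) x := by
  classical
  rw [← Finset.prod_const, ← Finset.prod_mul_distrib]
  by_cases h : x ∈ ⋂ i ∈ S, (A i)ᶜ
  · rw [indicator_of_mem h]
    apply Finset.prod_eq_one
    intro i hi
    have : x ∉ A i := by
      have := mem_iInter₂.1 h i hi
      exact this
    rw [sg_of_notMem this]; norm_num
  · rw [indicator_of_notMem h]
    simp only [mem_iInter, not_forall] at h
    obtain ⟨i, hi, hx⟩ := h
    have hx' : x ∈ A i := by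
      by_contra h'
      exact hx h'
    apply Finset.prod_eq_zero hi
    rw [sg_of_mem hx']; norm_num

/-- the π-system. -/
def cyl (A : Ξ → Set X) : Set (Set X) := {E | ∃ S : Finset Ξ, E = ⋂ i ∈ S, (A i)ᶜ}

lemma isPiSystem_cyl (A : Ξ → Set X) : IsPiSystem (cyl A) := by
  classical
  rintro _ ⟨S, rfl⟩ _ ⟨T, rfl⟩ _
  refine ⟨S ∪ T, ?_⟩
  ext x
  simp only [mem_inter_iff, mem_iInter, Finset.mem_union]
  constructor
  · rintro ⟨h1, h2⟩ i (hi | hi)
    · exact h1 i hi
    · exact h2 i hi
  · intro h
    exact ⟨fun i hi => h i (Or.inl hi), fun i hi => h i (Or.inr hi)⟩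

lemma generateFrom_cyl (A : Ξ → Set X) :
    MeasurableSpace.generateFrom (Set.range A) = MeasurableSpace.generateFrom (cyl A) := by
  apply le_antisymm
  · apply MeasurableSpace.generateFrom_le
    rintro _ ⟨i, rfl⟩
    have : MeasurableSet[MeasurableSpace.generateFrom (cyl A)] (A i)ᶜ := by
      apply MeasurableSpace.measurableSet_generateFrom
      exact ⟨{i}, by simp⟩
    have h2 := @MeasurableSet.compl _ _ (MeasurableSpace.generateFrom (cyl A)) this
    rwa [compl_compl] at h2
  · apply MeasurableSpace.generateFrom_le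
    rintro _ ⟨S, rfl⟩
    refine @Finset.measurableSet_biInter _ _ (MeasurableSpace.generateFrom (Set.range A)) _ S ?_
    intro i _
    exact @MeasurableSet.compl _ _ (MeasurableSpace.generateFrom (Set.range A))
      (MeasurableSpace.measurableSet_generateFrom ⟨i, rfl⟩)

theorem stmtTotal : StmtTotal.{u} := by
  intro X _ μ C Ξ A hB ξ hξ h
  haveI : IsFiniteMeasure (μ.restrict C) := ⟨by rw [Measure.restrict_apply_univ]; exact hB.fin.lt_top⟩
  have hint : Integrable (ξ : X → ℂ) (μ.restrict C) :=
    ((Lp.memLp ξ).restrict C).integrable (by norm_num)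
  have hm : ∀ i, MeasurableSet (A i) := hB.meas
  have hle : MeasurableSpace.generateFrom (Set.range A) ≤ (inferInstance : MeasurableSpace X) := by
    apply MeasurableSpace.generateFrom_le
    rintro _ ⟨i, rfl⟩
    exact hm i
  have hw : ∀ S, Integrable (fun x => (walsh A S x : ℂ) * (ξ : X → ℂ) x) (μ.restrict C) := by
    intro S
    refine hint.bdd_mul (c := 1) ?_ ?_
    · exact (Complex.measurable_ofReal.comp (measurable_walsh hm S)).aestronglyMeasurable
    · refine Eventually.of_forall fun x => ?_
      rw [Complex.norm_real, Real.norm_eq_abs, abs_walsh]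
  have key : ∀ E, MeasurableSet[MeasurableSpace.generateFrom (Set.range A)] E →
      ∫ x in E, (ξ : X → ℂ) x ∂(μ.restrict C) = 0 := by
    intro E hE
    induction E, hE using MeasurableSpace.induction_on_inter (generateFrom_cyl A)
      (isPiSystem_cyl A) with
    | empty => simp
    | basic E hE =>
      obtain ⟨S, rfl⟩ := hE
      have hms : MeasurableSet (⋂ i ∈ S, (A i)ᶜ) :=
        Finset.measurableSet_biInter S fun i _ => (hm i).compl
      rw [← integral_indicator hms]
      have : (⋂ i ∈ S, (A i)ᶜ).indicator (ξ : X → ℂ) =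
          fun x => ((1 / 2 : ℂ)) ^ S.card * ∑ G ∈ S.powerset, (walsh A G x : ℂ) * (ξ : X → ℂ) x := by
        funext x
        have h1 := prod_sg A S x
        rw [← sum_walsh] at h1
        have h2 : ((⋂ i ∈ S, (A i)ᶜ).indicator (ξ : X → ℂ)) x =
            (((⋂ i ∈ S, (A i)ᶜ).indicator (fun _ => (1 : ℝ)) x : ℝ) : ℂ) * (ξ : X → ℂ) x := by
          by_cases hx : x ∈ ⋂ i ∈ S, (A i)ᶜ
          · rw [indicator_of_mem hx, indicator_of_mem hx]; simp
          · rw [indicator_of_notMem hx, indicator_of_notMem hx]; simp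
        rw [h2, ← h1]
        push_cast
        rw [← Finset.sum_mul, mul_assoc]
      rw [this, integral_const_mul, integral_finset_sum _ (fun G _ => hw G)]
      rw [Finset.sum_eq_zero (fun G _ => h G), mul_zero]
    | compl E hE ih =>
      have hE' : MeasurableSet E := hle _ hE
      have h0 : ∫ x, (ξ : X → ℂ) x ∂(μ.restrict C) = 0 := by
        have := h ∅
        simpa [walsh] using this
      have := integral_add_compl hE' hint
      rw [ih, h0, zero_add] at this
      exact this
    | iUnion f hd hf ih =>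
      rw [integral_iUnion (fun n => hle _ (hf n)) hd hint.integrableOn]
      simp [ih]
  have h0 : ∀ D, MeasurableSet D → ∫ x in D, (ξ : X → ℂ) x ∂(μ.restrict C) = 0 := by
    intro D hD
    obtain ⟨E, hE, hDE⟩ := hB.gen D hD
    rw [setIntegral_congr_set hDE]
    exact key E hE
  have h1 : (ξ : X → ℂ) =ᵐ[μ.restrict C] 0 :=
    hint.ae_eq_zero_of_forall_setIntegral_eq_zero (fun D hD _ => h0 D hD)
  have h2 : ∀ᵐ x ∂μ, x ∈ C → (ξ : X → ℂ) x = 0 := by
    rw [← ae_restrict_iff' hB.mC]
    exact h1
  apply Lp.ext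
  filter_upwards [h2, hξ, Lp.coeFn_zero ℂ 2 μ] with x hx1 hx2 hx3
  rw [hx3]
  by_cases hx : x ∈ C
  · exact hx1 hx
  · exact hx2 hx

end Pool.Agent.R280.MSW
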