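import Pool.Agent.R280.MSW.Perm2

/-! Permutation operators of a Bernoulli piece: construction (piece MS-W, StmtPerm). -/

set_option autoImplicit false

namespace Pool.Agent.R280.MSW

open MeasureTheory Filter Topology Set
open Pool.Agent.R229.MS
open scoped InnerProductSpace ENNReal NNReal

universe u

variable {X Ξ : Type u} [MeasurableSpace X] {μ : Measure X} {C : Set X} {A : Ξ → Set X}

section exp

variable {hB : Bern μ C A} {π : Ξ ≃ Ξ} {U : L2 μ →L[ℂ] L2 μ}

lemma isClosed_supp {D : Set X} (hD : MeasurableSet D) : IsClosed {f : L2 μ | Supp f D} := by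
  have : {f : L2 μ | Supp f D} = (fun f : L2 μ => restr hD.compl f) ⁻¹' {0} := by
    ext f
    exact (restr_compl_eq_zero hD).symm
  rw [this]
  exact isClosed_singleton.preimage (restr hD.compl).continuous

theorem PermOp.expands (h : PermOp hB π U) : Expands 1 U := by
  intro D hD
  obtain ⟨D', hD', hDD'⟩ := (h.zo hD).exists_set
  have hnorm : ‖U (J hB hD)‖ = ‖J hB hD‖ := by
    have h1 := h.inn _ _ (supp_J hB hD) (supp_J hB hD)
    rw [inner_self_eq_norm_sq_to_K, inner_self_eq_norm_sq_to_K] at h1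
    have h2 : ‖U (J hB hD)‖ ^ 2 = ‖J hB hD‖ ^ 2 := by exact_mod_cast h1
    exact (pow_left_inj₀ (norm_nonneg _) (norm_nonneg _) two_ne_zero).1 h2
  refine ⟨D', hD', ?_, ?_⟩
  · rw [measure_eq_of_norm_eq hD' (hB.mC.inter hD) hDD' (J_coe hB hD) hnorm, ENNReal.coe_one,
      one_mul]
    exact measure_mono inter_subset_right
  · -- indicators of subsets of `D`
    have hind : ∀ E : Set X, MeasurableSet E → E ⊆ D → ∀ hE : MeasurableSet E,
        Supp (U (J hB hE)) D' := by
      intro E _ hED hE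
      have e1 : J hB hD = J hB hE + J hB (hD.diff hE) :=
        J_add hB hE (hD.diff hE) hD (union_diff_cancel hED).symm disjoint_sdiff_right
      have e2 : U (J hB hD) = U (J hB hE) + U (J hB (hD.diff hE)) := by rw [e1, map_add]
      have h4 := Lp.coeFn_add (U (J hB hE)) (U (J hB (hD.diff hE)))
      rw [← e2] at h4
      filter_upwards [h4, hDD', h.zo hE, h.zo (hD.diff hE)] with x h4 h5 h6 h7 hx
      rw [h5, Pi.add_apply, indicator_of_notMem hx] at h4
      rcases h6 with h6 | h6
      · exact h6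
      · exfalso
        rcases h7 with h7 | h7 <;> rw [h6, h7] at h4 <;> norm_num at h4
    have hall : ∀ f : L2 μ, Supp (U (restr hD f)) D' := by
      intro f
      induction f using Lp.induction (by norm_num : (2 : ℝ≥0∞) ≠ ∞) with
      | indicatorConst c hs hμs =>
        rename_i s
        rw [Lp.simpleFunc.coe_indicatorConst]
        have e1 : restr hD (indicatorConstLp 2 hs hμs.ne c) =
            c • J hB (hs.inter hD) + restr (hB.mC.compl) (restr hD (indicatorConstLp 2 hs hμs.ne c)) := by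
          apply Lp.ext
          filter_upwards [restr_coe hD (indicatorConstLp 2 hs hμs.ne c),
            (indicatorConstLp_coeFn : (indicatorConstLp 2 hs hμs.ne c : X → ℂ) =ᵐ[μ] _),
            restr_coe (hB.mC.compl) (restr hD (indicatorConstLp 2 hs hμs.ne c)),
            J_coe hB (hs.inter hD), Lp.coeFn_smul c (J hB (hs.inter hD)),
            Lp.coeFn_add (c • J hB (hs.inter hD))
              (restr (hB.mC.compl) (restr hD (indicatorConstLp 2 hs hμs.ne c)))]
            with x h1 h2 h3 h4 h5 h6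
          rw [h6, Pi.add_apply, h5, Pi.smul_apply, h4, h3]
          by_cases hC : x ∈ C
          · rw [indicator_of_notMem (show x ∉ Cᶜ from fun h => h hC), add_zero, h1]
            by_cases hxD : x ∈ D
            · rw [indicator_of_mem hxD, h2]
              by_cases hxs : x ∈ s
              · rw [indicator_of_mem hxs,
                  indicator_of_mem (show x ∈ C ∩ (s ∩ D) from ⟨hC, hxs, hxD⟩)]
                simp
              · rw [indicator_of_notMem hxs, indicator_of_notMem (fun h => hxs h.2.1)]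
                simp
            · rw [indicator_of_notMem hxD, indicator_of_notMem (fun h => hxD h.2.2)]
              simp
          · rw [indicator_of_mem (show x ∈ Cᶜ from hC), indicator_of_notMem (fun h => hC h.1),
              smul_zero, zero_add]
        rw [e1, map_add, map_smul, h.zer _ (supp_restr _ _), add_zero]
        exact (hind (s ∩ D) (hs.inter hD) inter_subset_right _).smul c
      | add hf hg _ h1 h2 =>
        rw [map_add, map_add]
        exact h1.add h2
      | isClosed =>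
        exact (isClosed_supp hD').preimage (U.continuous.comp (restr hD).continuous)
    intro ξ hξ
    have := hall ξ
    rwa [restr_eq_self hD hξ] at this

end exp

section construct

variable (hB : Bern μ C A)

/-- the subspace of the vectors supported in `C`. -/
def K (μ : Measure X) (C : Set X) : Submodule ℂ (L2 μ) where
  carrier := {f | Supp f C}
  add_mem' h h' := h.add h'
  zero_mem' := Supp.zero C
  smul_mem' c _ h := h.smul c

lemma mem_K {f : L2 μ} : f ∈ K μ C ↔ Supp f C := Iff.rfl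

include hB in
lemma complete_K : CompleteSpace (K μ C) :=
  (isClosed_supp hB.mC : IsClosed ((K μ C : Submodule ℂ (L2 μ)) : Set (L2 μ))).completeSpace_coe

lemma inner_W [DecidableEq Ξ] (S T : Finset Ξ) :
    ⟪W hB S, W hB T⟫_ℂ = if S = T then (μ.real C : ℂ) else 0 := by
  rw [MeasureTheory.L2.inner_def]
  have e1 : ∫ x, ⟪(W hB S : X → ℂ) x, (W hB T : X → ℂ) x⟫_ℂ ∂μ =
      ∫ x, C.indicator (fun x => ((walsh A (symmDiff S T) x : ℝ) : ℂ)) x ∂μ := by
    apply integral_congr_ae
    filter_upwards [W_coe hB S, W_coe hB T] with x h1 h2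
    rw [h1, h2]
    by_cases hC : x ∈ C
    · simp only [indicator_of_mem hC]
      rw [← walsh_mul]
      simp [mul_comm]
    · simp only [indicator_of_notMem hC]
      simp
  have e2 : ∫ x in C, ((walsh A (symmDiff S T) x : ℝ) : ℂ) ∂μ =
      ((∫ x in C, walsh A (symmDiff S T) x ∂μ : ℝ) : ℂ) := integral_ofReal
  rw [e1, integral_indicator hB.mC, e2]
  split_ifs with h
  · subst h
    rw [symmDiff_self]
    simp [walsh]
  · have : (symmDiff S T).Nonempty := by
      rw [Finset.nonempty_iff_ne_empty]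
      intro h0
      exact h (symmDiff_eq_bot.1 h0)
    rw [hB.orth _ this]
    simp

include hB in
lemma real_pos : 0 < μ.real C := ENNReal.toReal_pos hB.pos hB.fin

/-- normalised Walsh functions in `K`. -/
noncomputable def ek (S : Finset Ξ) : K μ C :=
  ⟨(((Real.sqrt (μ.real C))⁻¹ : ℝ) : ℂ) • W hB S, (supp_W hB S).smul _⟩

lemma ek_coe (S : Finset Ξ) :
    ((ek hB S : K μ C) : L2 μ) = (((Real.sqrt (μ.real C))⁻¹ : ℝ) : ℂ) • W hB S := rfl

lemma orthonormal_ek : Orthonormal ℂ (ek hB) := by
  classical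
  rw [orthonormal_iff_ite]
  intro S T
  rw [Submodule.coe_inner, ek_coe, ek_coe, inner_smul_left, inner_smul_right, inner_W]
  split_ifs with h
  · have h1 : Real.sqrt (μ.real C) ≠ 0 := (Real.sqrt_pos.2 (real_pos hB)).ne'
    have h2 : Real.sqrt (μ.real C) * Real.sqrt (μ.real C) = μ.real C :=
      Real.mul_self_sqrt (real_pos hB).le
    rw [Complex.conj_ofReal, ← Complex.ofReal_mul, ← Complex.ofReal_mul]
    have h3 : (Real.sqrt (μ.real C))⁻¹ * ((Real.sqrt (μ.real C))⁻¹ * μ.real C) = 1 := by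
      calc (Real.sqrt (μ.real C))⁻¹ * ((Real.sqrt (μ.real C))⁻¹ * μ.real C)
          = (Real.sqrt (μ.real C))⁻¹ * ((Real.sqrt (μ.real C))⁻¹ *
            (Real.sqrt (μ.real C) * Real.sqrt (μ.real C))) := by rw [h2]
        _ = 1 := by field_simp
    rw [h3]
    simp
  · simp

lemma total_ek {ι : Type u} (g : ι → Finset Ξ) (hg : Function.Surjective g) :
    (Submodule.span ℂ (Set.range fun i => ek hB (g i)))ᗮ = ⊥ := by
  rw [Submodule.eq_bot_iff]
  intro ξ hξ
  rw [Submodule.mem_orthogonal] at hξ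
  have h1 : ∀ S, ⟪W hB S, (ξ : L2 μ)⟫_ℂ = 0 := by
    intro S
    obtain ⟨i, hi⟩ := hg S
    have := hξ (ek hB (g i)) (Submodule.subset_span ⟨i, rfl⟩)
    rw [Submodule.coe_inner, ek_coe, inner_smul_left, hi] at this
    rcases mul_eq_zero.1 this with h | h
    · exfalso
      rw [map_eq_zero, Complex.ofReal_eq_zero, inv_eq_zero] at h
      exact (Real.sqrt_pos.2 (real_pos hB)).ne' h
    · exact h
  have h2 : (ξ : L2 μ) = 0 := by
    apply stmtTotal X μ C Ξ A hB _ ξ.2
    intro S
    have := h1 S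
    rw [MeasureTheory.L2.inner_def] at this
    rw [← this, ← integral_indicator hB.mC]
    apply integral_congr_ae
    filter_upwards [W_coe hB S] with x h3
    rw [h3]
    by_cases hC : x ∈ C
    · simp only [indicator_of_mem hC]
      simp [mul_comm]
    · simp only [indicator_of_notMem hC]
      simp
  exact Subtype.ext h2

variable [CompleteSpace (K μ C)]

/-- basis permuted by `π`. -/
noncomputable def bas (π : Ξ ≃ Ξ) : HilbertBasis (Finset Ξ) ℂ (K μ C) :=
  HilbertBasis.mkOfOrthogonalEqBot (v := fun S => ek hB (S.map π.toEmbedding))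
    ((orthonormal_ek hB).comp _ (Finset.map_injective _))
    (total_ek hB _ (by
      intro S
      refine ⟨S.map π.symm.toEmbedding, ?_⟩
      ext i
      simp))

lemma bas_apply (π : Ξ ≃ Ξ) (S : Finset Ξ) : bas hB π S = ek hB (S.map π.toEmbedding) := by
  unfold bas
  rw [HilbertBasis.coe_mkOfOrthogonalEqBot]

/-- the unitary of `K`. -/
noncomputable def VV (π : Ξ ≃ Ξ) : K μ C ≃ₗᵢ[ℂ] K μ C :=
  (bas hB (Equiv.refl _)).repr.trans (bas hB π).repr.symm

lemma VV_ek (π : Ξ ≃ Ξ) (S : Finset Ξ) : VV hB π (ek hB S) = ek hB (S.map π.toEmbedding) := by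
  classical
  have h1 : ek hB S = bas hB (Equiv.refl _) S := by
    rw [bas_apply]
    congr 1
    ext i; simp
  unfold VV
  rw [LinearIsometryEquiv.trans_apply, h1, HilbertBasis.repr_self, HilbertBasis.repr_symm_single,
    bas_apply]

lemma VV_symm_ek (π : Ξ ≃ Ξ) (S : Finset Ξ) :
    (VV hB π).symm (ek hB S) = ek hB (S.map π.symm.toEmbedding) := by
  rw [LinearIsometryEquiv.symm_apply_eq, VV_ek]
  congr 1
  ext i
  simp

/-- extend a unitary of `K` by `0`. -/
noncomputable def Uof (V : K μ C ≃ₗᵢ[ℂ] K μ C) : L2 μ →L[ℂ] L2 μ :=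
  (K μ C).subtypeL ∘L (V.toContinuousLinearEquiv : K μ C →L[ℂ] K μ C) ∘L
    (K μ C).orthogonalProjectionOnto

lemma Uof_apply (V : K μ C ≃ₗᵢ[ℂ] K μ C) (x : L2 μ) :
    Uof V x = ((V ((K μ C).orthogonalProjectionOnto x) : K μ C) : L2 μ) := rfl

lemma Uof_adj (V : K μ C ≃ₗᵢ[ℂ] K μ C) :
    ContinuousLinearMap.adjoint (Uof V) = Uof V.symm := by
  symm
  rw [ContinuousLinearMap.eq_adjoint_iff]
  intro x y
  rw [Uof_apply, Uof_apply]
  have h1 : ⟪((V.symm ((K μ C).orthogonalProjectionOnto x) : K μ C) : L2 μ), y⟫_ℂ =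
      ⟪V.symm ((K μ C).orthogonalProjectionOnto x), (K μ C).orthogonalProjectionOnto y⟫_ℂ := by
    rw [Submodule.inner_orthogonalProjectionOnto_eq_of_mem_left]
  have h2 : ⟪x, ((V ((K μ C).orthogonalProjectionOnto y) : K μ C) : L2 μ)⟫_ℂ =
      ⟪(K μ C).orthogonalProjectionOnto x, V ((K μ C).orthogonalProjectionOnto y)⟫_ℂ := by
    rw [Submodule.inner_orthogonalProjectionOnto_eq_of_mem_right]
  rw [h1, h2]
  have := V.inner_map_map (V.symm ((K μ C).orthogonalProjectionOnto x))
    ((K μ C).orthogonalProjectionOnto y)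
  rw [LinearIsometryEquiv.apply_symm_apply] at this
  exact this.symm

lemma Uof_permOp {V : K μ C ≃ₗᵢ[ℂ] K μ C} {π : Ξ ≃ Ξ}
    (h : ∀ S, V (ek hB S) = ek hB (S.map π.toEmbedding)) : PermOp hB π (Uof V) where
  app S := by
    have hc : (((Real.sqrt (μ.real C))⁻¹ : ℝ) : ℂ) ≠ 0 := by
      rw [Ne, Complex.ofReal_eq_zero, inv_eq_zero]
      exact (Real.sqrt_pos.2 (real_pos hB)).ne'
    have h1 : Uof V ((ek hB S : K μ C) : L2 μ) = ((ek hB (S.map π.toEmbedding) : K μ C) : L2 μ) := by
      rw [Uof_apply, Submodule.orthogonalProjectionOnto_mem_subspace_eq_self, h]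
    rw [ek_coe, ek_coe, map_smul] at h1
    exact smul_right_injective _ hc h1
  inn ξ η hξ hη := by
    rw [Uof_apply, Uof_apply, ← Submodule.coe_inner, V.inner_map_map]
    have e1 : (K μ C).orthogonalProjectionOnto ξ = ⟨ξ, hξ⟩ :=
      Submodule.orthogonalProjectionOnto_mem_subspace_eq_self (⟨ξ, hξ⟩ : K μ C)
    have e2 : (K μ C).orthogonalProjectionOnto η = ⟨η, hη⟩ :=
      Submodule.orthogonalProjectionOnto_mem_subspace_eq_self (⟨η, hη⟩ : K μ C)
    rw [e1, e2, Submodule.coe_inner]
  sup ξ := (V ((K μ C).orthogonalProjectionOnto ξ)).2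
  zer ξ hξ := by
    rw [Uof_apply]
    have : (K μ C).orthogonalProjectionOnto ξ = 0 := by
      rw [Submodule.orthogonalProjectionOnto_eq_zero_iff, Submodule.mem_orthogonal]
      intro k hk
      exact inner_eq_zero_of_supp hk hξ
    rw [this, map_zero]
    rfl

end construct

theorem stmtPerm : StmtPerm.{u} := by
  intro X _ μ C Ξ A hB π
  have := complete_K hB
  have h1 : PermOp hB π (Uof (VV hB π)) := Uof_permOp hB (VV_ek hB π)
  have h2 : PermOp hB π.symm (Uof (VV hB π).symm) := Uof_permOp hB (VV_symm_ek hB π)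
  refine ⟨Uof (VV hB π), ⟨1, h1.expands, ?_⟩, ?_, ?_, h1.zer⟩
  · rw [Uof_adj]
    exact h2.expands
  · intro S w w' hw hw'
    have e1 : w = W hB S := Lp.ext (hw.trans (W_coe hB S).symm)
    have e2 : w' = W hB (S.map π.toEmbedding) := Lp.ext (hw'.trans (W_coe hB _).symm)
    rw [e1, e2, h1.app]
  · intro ξ hξ
    refine ⟨?_, h1.sup ξ⟩
    have h3 := h1.inn _ _ hξ hξ
    rw [inner_self_eq_norm_sq_to_K, inner_self_eq_norm_sq_to_K] at h3
    have h4 : ‖Uof (VV hB π) ξ‖ ^ 2 = ‖ξ‖ ^ 2 := by exact_mod_cast h3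
    exact (pow_left_inj₀ (norm_nonneg _) (norm_nonneg _) two_ne_zero).1 h4

end Pool.Agent.R280.MSW
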