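import Pool.Agent.R280.MSW.Basic

/-! Permutation operators of a Bernoulli piece: expansion (piece MS-W, StmtPerm). -/

set_option autoImplicit false

namespace Pool.Agent.R280.MSW

open MeasureTheory Filter Topology Set
open Pool.Agent.R229.MS
open scoped InnerProductSpace ENNReal NNReal

universe u

section restr

variable {X : Type u} [MeasurableSpace X] {μ : Measure X}

/-- Multiplication by the indicator of `D` (linear map). -/
noncomputable def restrLin {D : Set X} (hD : MeasurableSet D) : L2 μ →ₗ[ℂ] L2 μ where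
  toFun f := ((Lp.memLp f).indicator hD).toLp _
  map_add' f g := by
    apply Lp.ext
    filter_upwards [((Lp.memLp (f + g)).indicator hD).coeFn_toLp,
      Lp.coeFn_add (((Lp.memLp f).indicator hD).toLp _) (((Lp.memLp g).indicator hD).toLp _),
      ((Lp.memLp f).indicator hD).coeFn_toLp, ((Lp.memLp g).indicator hD).coeFn_toLp,
      Lp.coeFn_add f g] with x h1 h2 h3 h4 h5
    rw [h1, h2, Pi.add_apply, h3, h4]
    by_cases hx : x ∈ D
    · simp only [indicator_of_mem hx]; rw [h5]; rfl
    · simp only [indicator_of_notMem hx]; simp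
  map_smul' c f := by
    apply Lp.ext
    filter_upwards [((Lp.memLp (c • f)).indicator hD).coeFn_toLp,
      Lp.coeFn_smul c (((Lp.memLp f).indicator hD).toLp _),
      ((Lp.memLp f).indicator hD).coeFn_toLp, Lp.coeFn_smul c f] with x h1 h2 h3 h4
    rw [h1, RingHom.id_apply, h2, Pi.smul_apply, h3]
    by_cases hx : x ∈ D
    · simp only [indicator_of_mem hx]; rw [h4]; rfl
    · simp only [indicator_of_notMem hx]; simp

/-- Multiplication by the indicator of `D`. -/
noncomputable def restr {D : Set X} (hD : MeasurableSet D) : L2 μ →L[ℂ] L2 μ :=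
  (restrLin hD).mkContinuous 1 (by
    intro f
    rw [one_mul]
    apply Lp.norm_le_norm_of_ae_le
    filter_upwards [((Lp.memLp f).indicator hD).coeFn_toLp] with x hx
    have : (restrLin hD f : L2 μ) = ((Lp.memLp f).indicator hD).toLp _ := rfl
    rw [this, hx]
    exact norm_indicator_le_norm_self _ _)

lemma restr_coe {D : Set X} (hD : MeasurableSet D) (f : L2 μ) :
    (restr hD f : X → ℂ) =ᵐ[μ] D.indicator f :=
  ((Lp.memLp f).indicator hD).coeFn_toLp

lemma restr_eq_self {D : Set X} (hD : MeasurableSet D) {f : L2 μ} (hf : Supp f D) :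
    restr hD f = f := by
  apply Lp.ext
  filter_upwards [restr_coe hD f, hf] with x h1 h2
  rw [h1]
  by_cases hx : x ∈ D
  · rw [indicator_of_mem hx]
  · rw [indicator_of_notMem hx, h2 hx]

lemma restr_compl_eq_zero {D : Set X} (hD : MeasurableSet D) {f : L2 μ} :
    restr hD.compl f = 0 ↔ Supp f D := by
  constructor
  · intro h
    have h1 := restr_coe hD.compl f
    rw [h] at h1
    filter_upwards [h1, Lp.coeFn_zero ℂ 2 μ] with x h1 h2 hx
    rw [h2, indicator_of_mem (by exact hx)] at h1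
    exact h1.symm
  · intro h
    apply Lp.ext
    filter_upwards [restr_coe hD.compl f, h, Lp.coeFn_zero ℂ 2 μ] with x h1 h2 h3
    rw [h1, h3]
    by_cases hx : x ∈ D
    · rw [indicator_of_notMem (by exact fun h => h hx)]; rfl
    · rw [indicator_of_mem (by exact hx), h2 hx]; rfl

lemma supp_restr {D : Set X} (hD : MeasurableSet D) (f : L2 μ) : Supp (restr hD f) D := by
  filter_upwards [restr_coe hD f] with x h1 hx
  rw [h1, indicator_of_notMem hx]

lemma inner_eq_zero_of_supp {f g : L2 μ} {D : Set X} (hf : Supp f D) (hg : Supp g Dᶜ) :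
    ⟪f, g⟫_ℂ = 0 := by
  rw [MeasureTheory.L2.inner_def]
  rw [integral_eq_zero_of_ae]
  filter_upwards [hf, hg] with x h1 h2
  by_cases hx : x ∈ D
  · rw [h2 (fun h => h hx)]; simp
  · rw [h1 hx]; simp

/-- `0/1`-valued elements of `L²`. -/
def Zo (f : L2 μ) : Prop := ∀ᵐ x ∂μ, (f : X → ℂ) x = 0 ∨ (f : X → ℂ) x = 1

lemma Zo.of_tendsto {f : ℕ → L2 μ} {g : L2 μ} (hf : ∀ n, Zo (f n))
    (h : Tendsto f atTop (𝓝 g)) : Zo g := by
  obtain ⟨ns, -, hns⟩ := (tendstoInMeasure_of_tendsto_Lp h).exists_seq_tendsto_ae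
  have h1 : ∀ᵐ x ∂μ, ∀ n, (f n : X → ℂ) x = 0 ∨ (f n : X → ℂ) x = 1 := ae_all_iff.2 hf
  filter_upwards [hns, h1] with x hx h2
  have hc : IsClosed ({0, 1} : Set ℂ) := (Set.toFinite _).isClosed
  have := hc.mem_of_tendsto hx (Eventually.of_forall fun n => by
    rcases h2 (ns n) with h3 | h3
    · left; exact h3
    · right; exact h3)
  rcases this with h3 | h3
  · left; exact h3
  · right; exact h3

lemma Zo.add {f g : L2 μ} (hf : Zo f) (hg : Zo g) (h : ⟪f, g⟫_ℂ = 0) : Zo (f + g) := by
  rw [MeasureTheory.L2.inner_def] at h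
  have hfg : Integrable (fun x => ⟪(f : X → ℂ) x, (g : X → ℂ) x⟫_ℂ) μ :=
    MeasureTheory.L2.integrable_inner f g
  have hre : ∫ x, (⟪(f : X → ℂ) x, (g : X → ℂ) x⟫_ℂ).re ∂μ = 0 := by
    have := congrArg Complex.re h
    rw [Complex.zero_re] at this
    rw [← this]
    exact integral_re hfg
  have hnn : 0 ≤ᵐ[μ] fun x => (⟪(f : X → ℂ) x, (g : X → ℂ) x⟫_ℂ).re := by
    filter_upwards [hf, hg] with x h1 h2
    rcases h1 with h1 | h1 <;> rcases h2 with h2 | h2 <;> simp [h1, h2]
  rw [integral_eq_zero_iff_of_nonneg_ae hnn hfg.re] at hre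
  filter_upwards [hf, hg, hre, Lp.coeFn_add f g] with x h1 h2 h3 h4
  rw [h4, Pi.add_apply]
  rcases h1 with h1 | h1 <;> rcases h2 with h2 | h2 <;> simp [h1, h2] at h3 ⊢

/-- a `0/1`-valued element is an indicator with the right measure. -/
lemma Zo.exists_set {f : L2 μ} (hf : Zo f) : ∃ D : Set X, MeasurableSet D ∧
    (f : X → ℂ) =ᵐ[μ] D.indicator (fun _ => (1 : ℂ)) := by
  refine ⟨{x | (f : X → ℂ) x = 1}, ?_, ?_⟩
  · exact (Lp.stronglyMeasurable f).measurable (measurableSet_singleton 1)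
  · filter_upwards [hf] with x hx
    rcases hx with hx | hx
    · rw [indicator_of_notMem, hx]
      intro h
      have h' : (f : X → ℂ) x = 1 := h
      rw [hx] at h'
      exact zero_ne_one h'
    · rw [indicator_of_mem, hx]
      exact hx

lemma measure_eq_of_norm_eq {f g : L2 μ} {D E : Set X} (hD : MeasurableSet D)
    (hE : MeasurableSet E) (hf : (f : X → ℂ) =ᵐ[μ] D.indicator (fun _ => (1 : ℂ)))
    (hg : (g : X → ℂ) =ᵐ[μ] E.indicator (fun _ => (1 : ℂ))) (h : ‖f‖ = ‖g‖) : μ D = μ E := by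
  have h1 : ‖f‖ₑ = ‖g‖ₑ := by rw [← ofReal_norm_eq_enorm, ← ofReal_norm_eq_enorm, h]
  rw [Lp.enorm_def, Lp.enorm_def, eLpNorm_congr_ae hf, eLpNorm_congr_ae hg,
    eLpNorm_indicator_const hD (by norm_num) (by norm_num),
    eLpNorm_indicator_const hE (by norm_num) (by norm_num)] at h1
  simp only [enorm_one, one_mul] at h1
  exact ENNReal.rpow_left_injective (by norm_num) h1

end restr

end Pool.Agent.R280.MSW
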