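import Pool.Agent.R280.MSW.Perm

/-! Permutation operators of a Bernoulli piece: expansion lemma (piece MS-W, StmtPerm). -/

set_option autoImplicit false

namespace Pool.Agent.R280.MSW

open MeasureTheory Filter Topology Set
open Pool.Agent.R229.MS
open scoped InnerProductSpace ENNReal NNReal

universe u

variable {X Ξ : Type u} [MeasurableSpace X] {μ : Measure X} {C : Set X} {A : Ξ → Set X}

lemma memLp_wfun (hB : Bern μ C A) (S : Finset Ξ) :
    MemLp (C.indicator (fun x => (walsh A S x : ℂ))) 2 μ := by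
  rw [memLp_indicator_iff_restrict hB.mC]
  have : IsFiniteMeasure (μ.restrict C) :=
    ⟨by rw [Measure.restrict_apply_univ]; exact hB.fin.lt_top⟩
  refine MemLp.of_bound
    (Complex.measurable_ofReal.comp (measurable_walsh hB.meas S)).aestronglyMeasurable 1 ?_
  refine Eventually.of_forall fun x => ?_
  change ‖((walsh A S x : ℝ) : ℂ)‖ ≤ 1
  rw [Complex.norm_real, Real.norm_eq_abs, abs_walsh]

/-- the Walsh functions in `L²`. -/
noncomputable def W (hB : Bern μ C A) (S : Finset Ξ) : L2 μ := (memLp_wfun hB S).toLp _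

lemma W_coe (hB : Bern μ C A) (S : Finset Ξ) :
    (W hB S : X → ℂ) =ᵐ[μ] C.indicator (fun x => (walsh A S x : ℂ)) :=
  (memLp_wfun hB S).coeFn_toLp

lemma supp_W (hB : Bern μ C A) (S : Finset Ξ) : Supp (W hB S) C := by
  filter_upwards [W_coe hB S] with x h hx
  rw [h, indicator_of_notMem hx]

lemma fin_inter (hB : Bern μ C A) (D : Set X) : μ (C ∩ D) ≠ ∞ :=
  ne_top_of_le_ne_top hB.fin (measure_mono inter_subset_left)

/-- indicator of `C ∩ D` in `L²`. -/
noncomputable def J (hB : Bern μ C A) {D : Set X} (hD : MeasurableSet D) : L2 μ :=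
  indicatorConstLp 2 (hB.mC.inter hD) (fin_inter hB D) (1 : ℂ)

lemma J_coe (hB : Bern μ C A) {D : Set X} (hD : MeasurableSet D) :
    (J hB hD : X → ℂ) =ᵐ[μ] (C ∩ D).indicator (fun _ => (1 : ℂ)) :=
  indicatorConstLp_coeFn

lemma supp_J (hB : Bern μ C A) {D : Set X} (hD : MeasurableSet D) : Supp (J hB hD) C := by
  filter_upwards [J_coe hB hD] with x h hx
  rw [h, indicator_of_notMem (fun h => hx h.1)]

lemma supp_J' (hB : Bern μ C A) {D : Set X} (hD : MeasurableSet D) : Supp (J hB hD) D := by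
  filter_upwards [J_coe hB hD] with x h hx
  rw [h, indicator_of_notMem (fun h => hx h.2)]

lemma J_add (hB : Bern μ C A) {D E F : Set X} (hD : MeasurableSet D) (hE : MeasurableSet E)
    (hF : MeasurableSet F) (hFe : F = D ∪ E) (hd : Disjoint D E) :
    J hB hF = J hB hD + J hB hE := by
  apply Lp.ext
  filter_upwards [J_coe hB hD, J_coe hB hE, J_coe hB hF, Lp.coeFn_add (J hB hD) (J hB hE)]
    with x h1 h2 h3 h4
  rw [h4, h3, Pi.add_apply, h1, h2, hFe, inter_union_distrib_left,
    indicator_union_of_disjoint (hd.mono inter_subset_right inter_subset_right)]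

/-- The hypotheses on an operator realising a permutation `π` of the index set. -/
structure PermOp (hB : Bern μ C A) (π : Ξ ≃ Ξ) (U : L2 μ →L[ℂ] L2 μ) : Prop where
  app : ∀ S, U (W hB S) = W hB (S.map π.toEmbedding)
  inn : ∀ ξ η : L2 μ, Supp ξ C → Supp η C → ⟪U ξ, U η⟫_ℂ = ⟪ξ, η⟫_ℂ
  sup : ∀ ξ : L2 μ, Supp (U ξ) C
  zer : ∀ ξ : L2 μ, Supp ξ Cᶜ → U ξ = 0

section exp

variable {hB : Bern μ C A} {π : Ξ ≃ Ξ} {U : L2 μ →L[ℂ] L2 μ}

lemma J_univ (hB : Bern μ C A) : J hB (MeasurableSet.univ) = W hB ∅ := by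
  apply Lp.ext
  filter_upwards [J_coe hB MeasurableSet.univ, W_coe hB ∅] with x h1 h2
  rw [h1, h2, inter_univ]
  simp [walsh]

lemma J_cyl (hB : Bern μ C A) (S : Finset Ξ) (h : MeasurableSet (⋂ i ∈ S, (A i)ᶜ)) :
    J hB h = ((1 / 2 : ℂ) ^ S.card) • ∑ G ∈ S.powerset, W hB G := by
  apply Lp.ext
  have hall : ∀ᵐ x ∂μ, ∀ G ∈ S.powerset, (W hB G : X → ℂ) x =
      C.indicator (fun x => (walsh A G x : ℂ)) x := by
    rw [Filter.eventually_all_finset]
    exact fun G _ => W_coe hB G
  filter_upwards [J_coe hB h, Lp.coeFn_smul ((1 / 2 : ℂ) ^ S.card) (∑ G ∈ S.powerset, W hB G),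
    Lp.coeFn_fun_finsetSum S.powerset (fun G => W hB G), hall] with x h1 h2 h3 h4
  rw [h1, h2, Pi.smul_apply, h3, smul_eq_mul, Finset.sum_congr rfl h4]
  by_cases hC : x ∈ C
  · simp only [indicator_of_mem hC]
    have h5 := prod_sg A S x
    rw [← sum_walsh] at h5
    have h6 : (C ∩ ⋂ i ∈ S, (A i)ᶜ).indicator (fun _ => (1 : ℂ)) x =
        (((⋂ i ∈ S, (A i)ᶜ).indicator (fun _ => (1 : ℝ)) x : ℝ) : ℂ) := by
      by_cases hx : x ∈ ⋂ i ∈ S, (A i)ᶜ
      · have hx' : x ∈ C ∩ ⋂ i ∈ S, (A i)ᶜ := ⟨hC, hx⟩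
        rw [indicator_of_mem hx, indicator_of_mem hx']; simp
      · have hx' : x ∉ C ∩ ⋂ i ∈ S, (A i)ᶜ := fun h => hx h.2
        rw [indicator_of_notMem hx, indicator_of_notMem hx']; simp
    rw [h6, ← h5]
    push_cast
    rfl
  · simp only [indicator_of_notMem hC]
    have hx' : x ∉ C ∩ ⋂ i ∈ S, (A i)ᶜ := fun h => hC h.1
    rw [indicator_of_notMem hx']
    simp

lemma PermOp.zo_cyl (h : PermOp hB π U) (S : Finset Ξ) (hS : MeasurableSet (⋂ i ∈ S, (A i)ᶜ)) :
    Zo (U (J hB hS)) := by
  have e1 : U (J hB hS) = ((1 / 2 : ℂ) ^ S.card) • ∑ G ∈ S.powerset, W hB (G.map π.toEmbedding) := by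
    rw [J_cyl hB S hS, map_smul, map_sum]
    congr 1
    exact Finset.sum_congr rfl fun G _ => h.app G
  rw [e1]
  have hall : ∀ᵐ x ∂μ, ∀ G ∈ S.powerset, (W hB (G.map π.toEmbedding) : X → ℂ) x =
      C.indicator (fun x => (walsh A (G.map π.toEmbedding) x : ℂ)) x := by
    rw [Filter.eventually_all_finset]
    exact fun G _ => W_coe hB _
  filter_upwards [Lp.coeFn_smul ((1 / 2 : ℂ) ^ S.card)
      (∑ G ∈ S.powerset, W hB (G.map π.toEmbedding)),
    Lp.coeFn_fun_finsetSum S.powerset (fun G => W hB (G.map π.toEmbedding)), hall] with x h2 h3 h4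
  rw [h2, Pi.smul_apply, h3, smul_eq_mul, Finset.sum_congr rfl h4]
  by_cases hC : x ∈ C
  · simp only [indicator_of_mem hC, walsh_map]
    have h5 := prod_sg (fun i => A (π i)) S x
    rw [← sum_walsh] at h5
    have h6 : ((1 / 2 : ℂ)) ^ S.card * ∑ G ∈ S.powerset, ((walsh (fun i => A (π i)) G x : ℝ) : ℂ) =
        (((⋂ i ∈ S, (A (π i))ᶜ).indicator (fun _ => (1 : ℝ)) x : ℝ) : ℂ) := by
      rw [← h5]
      push_cast
      rfl
    rw [h6]
    by_cases hx : x ∈ ⋂ i ∈ S, (A (π i))ᶜ
    · rw [indicator_of_mem hx]; right; simp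
    · rw [indicator_of_notMem hx]; left; simp
  · simp only [indicator_of_notMem hC]
    left; simp

lemma J_congr (hB : Bern μ C A) {D E : Set X} (hD : MeasurableSet D) (hE : MeasurableSet E)
    (h : D =ᵐ[μ.restrict C] E) : J hB hD = J hB hE := by
  apply Lp.ext
  have h' : ∀ᵐ x ∂μ, x ∈ C → (x ∈ D ↔ x ∈ E) := by
    rw [← ae_restrict_iff' hB.mC]
    filter_upwards [h] with x hx
    exact Iff.of_eq hx
  filter_upwards [J_coe hB hD, J_coe hB hE, h'] with x h1 h2 h3
  rw [h1, h2]
  by_cases hC : x ∈ C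
  · by_cases h4 : x ∈ D
    · have h5 : x ∈ E := (h3 hC).1 h4
      rw [indicator_of_mem (show x ∈ C ∩ D from ⟨hC, h4⟩),
        indicator_of_mem (show x ∈ C ∩ E from ⟨hC, h5⟩)]
    · have h5 : x ∉ E := fun h => h4 ((h3 hC).2 h)
      rw [indicator_of_notMem (fun h => h4 h.2), indicator_of_notMem (fun h => h5 h.2)]
  · rw [indicator_of_notMem (fun h => hC h.1), indicator_of_notMem (fun h => hC h.1)]

lemma inner_J (hB : Bern μ C A) {D E : Set X} (hD : MeasurableSet D) (hE : MeasurableSet E)
    (hd : Disjoint D E) : ⟪J hB hD, J hB hE⟫_ℂ = 0 := by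
  apply inner_eq_zero_of_supp (supp_J' hB hD)
  exact (supp_J' hB hE).mono (fun x hx hx' => disjoint_left.1 hd hx' hx)

lemma PermOp.zo_union (h : PermOp hB π U) {D E F : Set X} (hD : MeasurableSet D)
    (hE : MeasurableSet E) (hF : MeasurableSet F) (hFe : F = D ∪ E) (hd : Disjoint D E)
    (h1 : Zo (U (J hB hD))) (h2 : Zo (U (J hB hE))) : Zo (U (J hB hF)) := by
  rw [J_add hB hD hE hF hFe hd, map_add]
  refine h1.add h2 ?_
  rw [h.inn _ _ (supp_J hB hD) (supp_J hB hE)]
  exact inner_J hB hD hE hd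

lemma PermOp.zo_aux (h : PermOp hB π U) (E : Set X)
    (hE : MeasurableSet[MeasurableSpace.generateFrom (Set.range A)] E) :
    ∀ hE' : MeasurableSet E, Zo (U (J hB hE')) := by
  have hle : MeasurableSpace.generateFrom (Set.range A) ≤ (inferInstance : MeasurableSpace X) := by
    apply MeasurableSpace.generateFrom_le
    rintro _ ⟨i, rfl⟩
    exact hB.meas i
  induction E, hE using MeasurableSpace.induction_on_inter (generateFrom_cyl A)
    (isPiSystem_cyl A) with
  | empty =>
    intro hE'
    have : J hB hE' = 0 := by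
      apply Lp.ext
      filter_upwards [J_coe hB hE', Lp.coeFn_zero ℂ 2 μ] with x h1 h2
      rw [h1, h2]
      simp
    rw [this, map_zero]
    filter_upwards [Lp.coeFn_zero ℂ 2 μ] with x hx
    left
    rw [hx]; rfl
  | basic E hE =>
    obtain ⟨S, rfl⟩ := hE
    intro hE'
    exact h.zo_cyl S hE'
  | compl E hE ih =>
    intro hE'
    have hE2 : MeasurableSet E := hle _ hE
    have e1 : J hB MeasurableSet.univ = J hB hE2 + J hB hE' :=
      J_add hB hE2 hE' MeasurableSet.univ (union_compl_self E).symm disjoint_compl_right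
    have e2 : U (J hB MeasurableSet.univ) = J hB MeasurableSet.univ := by
      rw [J_univ, h.app]
      rfl
    have e3 : J hB MeasurableSet.univ = U (J hB hE2) + U (J hB hE') := by
      rw [← map_add, ← e1, e2]
    have h1 := ih hE2
    have h4 := Lp.coeFn_add (U (J hB hE2)) (U (J hB hE'))
    rw [← e3] at h4
    filter_upwards [h1, h4, J_coe hB MeasurableSet.univ, h.sup (J hB hE2), h.sup (J hB hE')]
      with x h1 h4 h5 h6 h7
    by_cases hC : x ∈ C
    · rw [h5, Pi.add_apply, indicator_of_mem (show x ∈ C ∩ univ from ⟨hC, trivial⟩)] at h4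
      rcases h1 with h1 | h1
      · right
        rw [h1, zero_add] at h4
        exact h4.symm
      · left
        rw [h1] at h4
        have : (1 : ℂ) + 0 = 1 + ((U (J hB hE') : L2 μ) : X → ℂ) x := by rw [add_zero]; exact h4
        exact (add_left_cancel this).symm
    · left
      exact h7 hC
  | iUnion f hd hf ih =>
    intro hE'
    have hf' : ∀ n, MeasurableSet (f n) := fun n => hle _ (hf n)
    have hG : ∀ N, MeasurableSet (⋃ n ∈ Finset.range N, f n) := fun N =>
      Finset.measurableSet_biUnion _ fun n _ => hf' n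
    have hZ : ∀ N, Zo (U (J hB (hG N))) := by
      intro N
      induction N with
      | zero =>
        have : J hB (hG 0) = 0 := by
          apply Lp.ext
          filter_upwards [J_coe hB (hG 0), Lp.coeFn_zero ℂ 2 μ] with x h1 h2
          rw [h1, h2]
          simp
        rw [this, map_zero]
        filter_upwards [Lp.coeFn_zero ℂ 2 μ] with x hx
        left
        rw [hx]; rfl
      | succ N ihN =>
        refine h.zo_union (hG N) (hf' N) (hG (N + 1)) ?_ ?_ ihN (ih N (hf' N))
        · ext x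
          simp only [mem_iUnion, Finset.mem_range, mem_union, exists_prop]
          constructor
          · rintro ⟨n, hn, hx⟩
            rcases Nat.lt_succ_iff_lt_or_eq.1 hn with h | h
            · left; exact ⟨n, h, hx⟩
            · right; rw [← h]; exact hx
          · rintro (⟨n, hn, hx⟩ | hx)
            · exact ⟨n, by omega, hx⟩
            · exact ⟨N, by omega, hx⟩
        · rw [disjoint_left]
          intro x hx hx'
          simp only [mem_iUnion, Finset.mem_range, exists_prop] at hx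
          obtain ⟨n, hn, hx⟩ := hx
          exact disjoint_left.1 (hd (ne_of_lt hn)) hx hx'
    have hlim : Tendsto (fun N => J hB (hG N)) atTop (𝓝 (J hB hE')) := by
      unfold J
      apply tendsto_indicatorConstLp_set (by norm_num)
      have hfin : IsFiniteMeasure (μ.restrict C) :=
        ⟨by rw [Measure.restrict_apply_univ]; exact hB.fin.lt_top⟩
      have hmono : Antitone fun N => (⋃ i, f i) \ (⋃ n ∈ Finset.range N, f n) := by
        intro N M hNM
        apply diff_subset_diff_right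
        apply biUnion_subset_biUnion_left
        intro n hn
        exact Finset.mem_coe.2 (Finset.range_mono hNM hn)
      have h0 : Tendsto (fun N => (μ.restrict C) ((⋃ i, f i) \ (⋃ n ∈ Finset.range N, f n))) atTop
          (𝓝 ((μ.restrict C) (⋂ N, (⋃ i, f i) \ (⋃ n ∈ Finset.range N, f n)))) := by
        apply tendsto_measure_iInter_atTop
        · exact fun N => ((MeasurableSet.iUnion hf').diff (hG N)).nullMeasurableSet
        · exact hmono
        · exact ⟨0, measure_ne_top _ _⟩
      have h1 : (⋂ N, (⋃ i, f i) \ (⋃ n ∈ Finset.range N, f n)) = ∅ := by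
        ext x
        simp only [mem_iInter, mem_diff, mem_iUnion, Finset.mem_range, exists_prop,
          mem_empty_iff_false, iff_false, not_forall]
        by_cases hx : ∃ i, x ∈ f i
        · obtain ⟨i, hi⟩ := hx
          refine ⟨i + 1, ?_⟩
          rintro ⟨-, h2⟩
          exact h2 ⟨i, by omega, hi⟩
        · exact ⟨0, fun h => hx h.1⟩
      rw [h1, measure_empty] at h0
      refine h0.congr fun N => ?_
      rw [Measure.restrict_apply ((MeasurableSet.iUnion hf').diff (hG N))]
      congr 1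
      ext x
      have hsub : (x ∈ ⋃ n ∈ Finset.range N, f n) → x ∈ ⋃ i, f i := by
        intro h
        simp only [mem_iUnion, exists_prop] at h ⊢
        obtain ⟨n, _, h⟩ := h
        exact ⟨n, h⟩
      simp only [mem_symmDiff, mem_inter_iff, mem_diff]
      tauto
    exact Zo.of_tendsto hZ ((U.continuous.tendsto _).comp hlim)

lemma PermOp.zo (h : PermOp hB π U) {D : Set X} (hD : MeasurableSet D) : Zo (U (J hB hD)) := by
  obtain ⟨E, hE, hDE⟩ := hB.gen D hD
  have hle : MeasurableSpace.generateFrom (Set.range A) ≤ (inferInstance : MeasurableSpace X) := by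
    apply MeasurableSpace.generateFrom_le
    rintro _ ⟨i, rfl⟩
    exact hB.meas i
  rw [J_congr hB hD (hle _ hE) hDE]
  exact h.zo_aux E hE _

end exp

end Pool.Agent.R280.MSW
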